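import Pool.Agent.TH358.BG.Main
import Pool.Agent.T9h5.GG.Main

/-!
# Acyclicity of the complexes `Γ(F,n) ⊗ ℚ` from `SpanDual` and the triviality of `ker δ_n`

(the proofs are those of `Pool/Agent/H39R2/Gon/E2.lean` and `Pool/Agent/TH358/GP/EvS.lean`)
-/

set_option autoImplicit false

namespace Pool.Agent.T9h5.BG

open scoped TensorProduct
open Polynomial H39Gon H39Gon.E2 H39Gon.C4 H39Gon.TC2

/-- Every functional on `B_{m+2}(F)` with values in a `ℚ`-vector space is of the form `ev Ψ`. -/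
def EvL (F : Type) [Field F] (m : ℕ) : Prop :=
  ∀ (W : Type) [AddCommGroup W] [Module ℚ W] (θ : ZP F →ₗ[ℤ] W),
    (∀ r ∈ R (m + 2) F, θ r = 0) →
    ∃ Ψ : UV F →ₗ[ℤ] UV F →ₗ[ℤ] MultilinearMap ℤ (fun _ : Fin m => UV F) W,
      (∀ a, Ψ a a = 0) ∧ θ = ev Ψ

theorem kill {F : Type} [Field F] {n : ℕ} {W : Type} [AddCommGroup W] [Module ℚ W]
    (θ : ZP F →ₗ[ℤ] W) (hθ : ∀ r ∈ R n F, θ r = 0) (α : ZP F) (N : ℕ) (hN : 0 < N)
    (h : N • α ∈ R n F) : θ α = 0 := by
  have h1 := hθ _ h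
  rw [map_nsmul, ← Nat.cast_smul_eq_nsmul ℚ] at h1
  rcases smul_eq_zero.1 h1 with h2 | h2
  · exfalso
    have : (N : ℚ) ≠ 0 := by exact_mod_cast hN.ne'
    exact this h2
  · exact h2

theorem evL_zero' (F : Type) [Field F]
    (h : ∀ (W : Type) [AddCommGroup W] [Module ℚ W] (θ : ZP F →ₗ[ℤ] W), (∀ r ∈ R 2 F, θ r = 0) →
      ∀ α, delta2 F α = 0 → θ α = 0) : EvL F 0 := by
  intro W _ _ θ hθ
  have hker : ∀ α, delta2 F α = 0 → θ α = 0 := h W θ hθ
  obtain ⟨L, hL⟩ := exists_ext _ θ hker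
  set f : MultilinearMap ℤ (fun _ : Fin 2 => UV F) W :=
    (L.compAlternatingMap (exteriorPower.ιMulti ℤ 2)).toMultilinearMap with hf
  refine ⟨(multilinearCurryLeftEquiv ℤ (fun _ : Fin 1 => UV F) W).toLinearMap ∘ₗ
    f.curryLeft, ?_, ?_⟩
  · intro a
    ext c
    change (L.compAlternatingMap (exteriorPower.ιMulti ℤ 2)) (Fin.cons a (Fin.cons a c)) = 0
    apply AlternatingMap.map_eq_zero_of_eq _ _ (i := 0) (j := 1)
    · rfl
    · simp
  · rw [hL]
    apply Finsupp.lhom_ext'
    intro x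
    apply LinearMap.ext_ring
    simp only [LinearMap.comp_apply, Finsupp.lsingle_apply, delta2, ev,
      Finsupp.linearCombination_single, one_smul]
    cases x with
    | none => simp
    | some x =>
      change L (exteriorPower.ιMulti ℤ 2 ![cl (1 - x), cl x]) =
        L (exteriorPower.ιMulti ℤ 2 (Fin.cons (cl (1 - x)) (Fin.cons (cl x) (fun _ => cl x))))
      congr 2

theorem evL_zero (F : Type) [Field F]
    (h : ∀ α, delta2 F α = 0 → ∃ N : ℕ, 0 < N ∧ N • α ∈ R 2 F) : EvL F 0 := by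
  apply evL_zero'
  intro W _ _ θ hθ α hα
  obtain ⟨N, hN, h1⟩ := h α hα
  exact kill θ hθ α N hN h1

theorem evL_succ' (F : Type) [Field F] (m : ℕ)
    (h : ∀ (W : Type) [AddCommGroup W] [Module ℚ W] (θ : ZP F →ₗ[ℤ] W),
      (∀ r ∈ R (m + 3) F, θ r = 0) → ∀ α, deltaS F (R (m + 2) F) α = 0 → θ α = 0)
    (ih : EvL F m) : EvL F (m + 1) := by
  intro W _ _ θ hθ
  have hker : ∀ α, deltaS F (R (m + 2) F) α = 0 → θ α = 0 := h W θ hθ
  obtain ⟨L, hL⟩ := exists_ext _ θ hker
  set θ' : ZP F →ₗ[ℤ] (UV F →ₗ[ℤ] W) :=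
    (TensorProduct.curry L) ∘ₗ (R (m + 2) F).mkQ with hθ'
  have hθ'0 : ∀ r ∈ R (m + 2) F, θ' r = 0 := by
    intro r hr
    have h1 : (R (m + 2) F).mkQ r = 0 := by
      rw [Submodule.mkQ_apply, Submodule.Quotient.mk_eq_zero]
      exact hr
    have h2 : θ' r = (TensorProduct.curry L) ((R (m + 2) F).mkQ r) := rfl
    rw [h2, h1]
    exact map_zero _
  obtain ⟨Ψ', hΨ'1, hΨ'2⟩ := ih (UV F →ₗ[ℤ] W) θ' hθ'0
  set E : MultilinearMap ℤ (fun _ : Fin m => UV F) (UV F →ₗ[ℤ] W) →ₗ[ℤ]
    MultilinearMap ℤ (fun _ : Fin (m + 1) => UV F) W :=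
    (multilinearCurryRightEquiv ℤ (fun _ : Fin (m + 1) => UV F) W).symm.toLinearMap
    with hE
  refine ⟨Ψ'.compr₂ E, ?_, ?_⟩
  · intro a
    rw [LinearMap.compr₂_apply, hΨ'1, map_zero]
  · rw [hL]
    apply Finsupp.lhom_ext'
    intro x
    apply LinearMap.ext_ring
    have h1 := congrArg (fun f => f (Finsupp.single x 1)) hΨ'2
    simp only [LinearMap.comp_apply, Finsupp.lsingle_apply, deltaS, ev,
      Finsupp.linearCombination_single, one_smul] at h1 ⊢
    cases x with
    | none => simp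
    | some x =>
      have h2 := congrArg (fun f => f (cl x)) h1
      exact h2

theorem evL_succ (F : Type) [Field F] (m : ℕ)
    (h : ∀ α, deltaS F (R (m + 2) F) α = 0 → ∃ N : ℕ, 0 < N ∧ N • α ∈ R (m + 3) F)
    (ih : EvL F m) : EvL F (m + 1) := by
  refine evL_succ' F m ?_ ih
  intro W _ _ θ hθ α hα
  obtain ⟨N, hN, h1⟩ := h α hα
  exact kill θ hθ α N hN h1

section Main

variable (F : Type) [Field F] (hsd : ∀ m, SpanDual F m) (D : Differentials F)

include hsd in
theorem step_d (m j : ℕ) (hE : EvL F (m + 1)) (φ : TQ F (m + 3) j →ₗ[ℚ] ℚ)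
    (hφ : ∀ (i : ℕ) (hi : j = i + 1) (x : F) (y : Fin i → UV F), x ≠ 0 →
      φ (tq F (m + 3) j (some x)
        ((Fin.cons (cl x) y : Fin (i + 1) → UV F) ∘ Fin.cast hi)) = 0) :
    ∃ ψ : TQ F (m + 2) (j + 1) →ₗ[ℚ] ℚ, ∀ v, φ v = ψ (D.d m j v) := by
  obtain ⟨Ψ, hΨ, hev⟩ := hE _ (toTheta φ) (fun r hr => toTheta_R φ r hr)
  have hnone : ∀ y, φ (tq F (m + 3) j none y) = 0 := by
    intro y
    rw [← toTheta_apply, hev, ev_none]
    rfl
  have hsome : ∀ x y, φ (tq F (m + 3) j (some x) y) =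
      Ψ (cl (1 - x)) (cl x) (fun _ => cl x) y := by
    intro x y
    rw [← toTheta_apply, hev, ev_some]
  obtain ⟨Q', hQ1, hQ2⟩ := koszul_step m j (qOf Ψ) (by
      intro s
      rw [qOf_apply, hΨ]
      rfl) (by
      intro i hi s v y
      subst hi
      have h1 := hsd (m + 2) (MultilinearMap.uncurryRight
        (M := fun _ : Fin (m + 2 + 1) => UV F)
        ((flipTail y).compMultilinearMap (qOf Ψ))) (by
          intro f hf0 hf1
          change qOf Ψ (fun _ => cl f) (cl (1 - f)) (Fin.cons (cl f) y) = 0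
          rw [qOf_apply, ← hsome]
          exact hφ i rfl f y hf0) s v
      exact h1)
  refine ⟨ofTheta (theta' Q') (theta'_R Q' hQ1), fun v => ?_⟩
  have h2 : φ = (ofTheta (theta' Q') (theta'_R Q' hQ1)) ∘ₗ (D.d m j) := by
    apply text
    intro x y
    rw [LinearMap.comp_apply]
    rcases x with _ | x
    · rw [hnone, D.d_inf, map_zero]
    · by_cases hx : x = 0
      · subst hx
        rw [D.d_zero, map_zero, hsome, E2.cl_zero, map_zero]
        rfl
      · rw [D.d_some m j x y hx, ofTheta_apply, theta'_some, hQ2, qOf_apply, hsome]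
  rw [h2]
  rfl

include hsd in
theorem step_e (j : ℕ) (hE : EvL F 0) (φ : TQ F 2 j →ₗ[ℚ] ℚ)
    (hφ : ∀ (i : ℕ) (hi : j = i + 1) (x : F) (y : Fin i → UV F), x ≠ 0 →
      φ (tq F 2 j (some x)
        ((Fin.cons (cl x) y : Fin (i + 1) → UV F) ∘ Fin.cast hi)) = 0) :
    ∃ ψ : LQ F (j + 2) →ₗ[ℚ] ℚ, ∀ v, φ v = ψ (D.e j v) := by
  obtain ⟨Ψ, hΨ, hev⟩ := hE _ (toTheta φ) (fun r hr => toTheta_R φ r hr)
  have hnone : ∀ y, φ (tq F 2 j none y) = 0 := by
    intro y
    rw [← toTheta_apply, hev, ev_none]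
    rfl
  have hsome : ∀ x y, φ (tq F 2 j (some x) y) =
      Ψ (cl (1 - x)) (cl x) (fun _ => cl x) y := by
    intro x y
    rw [← toTheta_apply, hev, ev_some]
  let Q : UV F →ₗ[ℤ] (UV F →ₗ[ℤ] (UV F [⋀^Fin j]→ₗ[ℤ] ℚ)) :=
    LinearMap.mk₂ ℤ (fun s v => Ψ v s Fin.elim0)
      (fun a b c => by simp) (fun a b c => by simp) (fun a b c => by simp)
      (fun a b c => by simp)
  have hQ : ∀ s v, Q s v = Ψ v s (fun _ => s) := by
    intro s v
    change Ψ v s Fin.elim0 = _
    congr 1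
    exact Subsingleton.elim _ _
  obtain ⟨Θ, hΘ⟩ := koszul_last j Q (by
      intro s
      rw [hQ, hΨ]
      rfl) (by
      intro i hi s v y
      subst hi
      have h1 := hsd 1 (MultilinearMap.uncurryRight
        (M := fun _ : Fin (1 + 1) => UV F)
        ((flipTail y).compMultilinearMap (qOf Ψ))) (by
          intro f hf0 hf1
          change qOf Ψ (fun _ => cl f) (cl (1 - f)) (Fin.cons (cl f) y) = 0
          rw [qOf_apply, ← hsome]
          exact hφ i rfl f y hf0) s v
      have h2 : qOf Ψ (fun _ => s) v (Fin.cons s y) = 0 := h1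
      rw [qOf_apply] at h2
      rw [hQ]
      exact h2)
  refine ⟨ofAlt Θ, fun v => ?_⟩
  have h2 : φ = (ofAlt Θ) ∘ₗ (D.e j) := by
    apply text
    intro x y
    rw [LinearMap.comp_apply]
    rcases x with _ | x
    · rw [hnone, D.e_inf, map_zero]
    · by_cases hx : x = 0
      · subst hx
        rw [D.e_zero, map_zero, hsome, E2.cl_zero, map_zero]
        rfl
      · by_cases hx1 : x = 1
        · subst hx1
          rw [D.e_one, map_zero, hsome, sub_self, E2.cl_zero, map_zero]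
          rfl
        · rw [D.e_some j x y hx hx1, ofAlt_apply, hΘ, hQ, hsome]
  rw [h2]
  rfl

include hsd in
theorem exact_dd (m j : ℕ) (hE : EvL F (m + 1)) :
    Function.Exact (D.d (m + 1) j) (D.d m (j + 1)) := by
  apply exact_of_dual
  · have h0 : (D.d m (j + 1)) ∘ₗ (D.d (m + 1) j) = 0 := by
      apply text
      intro x y
      rw [LinearMap.comp_apply, LinearMap.zero_apply]
      rcases x with _ | x
      · rw [D.d_inf, map_zero]
      · by_cases hx : x = 0
        · subst hx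
          rw [D.d_zero, map_zero]
        · rw [D.d_some _ _ _ _ hx, D.d_some _ _ _ _ hx]
          unfold tq
          have h1 : exteriorPower.ιMulti ℤ (j + 1 + 1)
              (Fin.cons (cl x) (Fin.cons (cl x) y : Fin (j + 1) → UV F)) = 0 :=
            AlternatingMap.map_eq_zero_of_eq _ _ (i := 0) (j := 1) (by simp) (by simp)
          rw [h1, TensorProduct.tmul_zero, TensorProduct.tmul_zero]
    intro u
    exact LinearMap.congr_fun h0 u
  · intro φ hφ
    apply step_d F hsd D m (j + 1) hE φ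
    intro i hi x y hx
    obtain rfl : j = i := by omega
    have h1 := hφ (tq F (m + 1 + 3) j (some x) y)
    rw [D.d_some _ _ _ _ hx] at h1
    exact h1

include hsd in
theorem exact_de (j : ℕ) (hE : EvL F 0) : Function.Exact (D.d 0 j) (D.e (j + 1)) := by
  apply exact_of_dual
  · have h0 : (D.e (j + 1)) ∘ₗ (D.d 0 j) = 0 := by
      apply text
      intro x y
      rw [LinearMap.comp_apply, LinearMap.zero_apply]
      rcases x with _ | x
      · rw [D.d_inf, map_zero]
      · by_cases hx : x = 0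
        · subst hx
          rw [D.d_zero, map_zero]
        · rw [D.d_some _ _ _ _ hx]
          by_cases hx1 : x = 1
          · subst hx1
            exact D.e_one _ _
          · rw [D.e_some _ _ _ hx hx1]
            unfold lq
            have h1 : exteriorPower.ιMulti ℤ (j + 1 + 2)
                (Fin.cons (cl (1 - x)) (Fin.cons (cl x)
                  (Fin.cons (cl x) y : Fin (j + 1) → UV F) :
                    Fin (j + 1 + 1) → UV F)) = 0 :=
              AlternatingMap.map_eq_zero_of_eq _ _ (i := ⟨1, by omega⟩) (j := ⟨2, by omega⟩)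
                (by rfl) (by simp [Fin.ext_iff])
            rw [h1, TensorProduct.tmul_zero]
    intro u
    exact LinearMap.congr_fun h0 u
  · intro φ hφ
    apply step_e F hsd D (j + 1) hE φ
    intro i hi x y hx
    obtain rfl : j = i := by omega
    have h1 := hφ (tq F (0 + 3) j (some x) y)
    rw [D.d_some _ _ _ _ hx] at h1
    exact h1

include hsd in
theorem surj_e (j : ℕ) : Function.Surjective (D.e j) := by
  apply surjective_of_dual
  intro χ hχ
  apply lext
  intro z
  rw [LinearMap.zero_apply, ← toAlt_apply]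
  have h1 : ∀ (y : Fin j → UV F) (s v : UV F),
      toAlt χ (Fin.cons v (Fin.cons s y)) = 0 := by
    intro y s v
    have h2 := hsd 0 (MultilinearMap.ofSubsingleton ℤ (UV F)
      (UV F →ₗ[ℤ] ℚ) (0 : Fin 1)
      (LinearMap.flip ((evalTail y) ∘ₗ (toAlt χ).curryLeft))) (by
        intro f hf0 hf1
        change toAlt χ (Fin.cons (cl (1 - f)) (Fin.cons (cl f) y)) = 0
        rw [toAlt_apply, ← D.e_some j f y hf0 hf1]
        exact hχ _) s v
    exact h2
  have h2 := h1 (fun i => z i.succ.succ) (z 1) (z 0)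
  have h3 : (Fin.cons (z 0) (Fin.cons (z 1) (fun i => z i.succ.succ)) : Fin (j + 2) → UV F) =
      z := by
    funext i
    refine Fin.cases rfl (fun i => ?_) i
    refine Fin.cases rfl (fun i => rfl) i
  rwa [h3] at h2

include hsd in
theorem inj_d (m : ℕ) (hE : EvL F (m + 1)) : Function.Injective (D.d m 0) := by
  apply injective_of_dual
  intro φ
  exact step_d F hsd D m 0 hE φ (fun i hi => by omega)

include hsd in
theorem inj_e (hE : EvL F 0) : Function.Injective (D.e 0) := by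
  apply injective_of_dual
  intro φ
  exact step_e F hsd D 0 hE φ (fun i hi => by omega)

end Main

/-! ### the version for the other set of definitions -/

/-- every element of `ker δ_n ⊆ ℤ[P^1_F]` has finite order in `B_n(F)`, `n = m + 2 ≥ 2` -/
def KT (F : Type) [Field F] : ℕ → Prop
  | 0 => ∀ α ∈ GonP.A2 F, ∃ N : ℕ, 0 < N ∧ N • GonP.toQuo (GonP.R 2 F) α = 0
  | (m + 1) => ∀ α ∈ GonP.AS F (GonP.R (m + 2) F), ∃ N : ℕ, 0 < N ∧
      N • GonP.toQuo (GonP.R (m + 3) F) α = 0

theorem evL_of_KT (F : Type) [Field F] (m : ℕ) (h : ∀ k, k ≤ m → KT F k) : EvL F m := by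
  induction m with
  | zero =>
    apply evL_zero
    intro α hα
    have h1 : α ∈ GonP.A2 F := by
      rw [GonP.A2_eq]
      exact LinearMap.mem_ker.2 hα
    exact (Pool.Agent.TH358.GP.tors_iff 0 α).1 (h 0 le_rfl α h1)
  | succ m ih =>
    refine evL_succ F m ?_ (ih fun k hk => h k (hk.trans (Nat.le_succ m)))
    intro α hα
    have h1 : α ∈ GonP.AS F (GonP.R (m + 2) F) := by
      rw [GonP.AS_eq _ _ (GonP.R_eq m)]
      exact LinearMap.mem_ker.2 hα
    exact (Pool.Agent.TH358.GP.tors_iff (m + 1) α).1 (h (m + 1) le_rfl α h1)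

end Pool.Agent.T9h5.BG
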