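import Pool.Agent.T9h5.BG.Acy

/-!
# Functionals on `B_n(F)` from the injectivity of the first differentials
-/

set_option autoImplicit false

namespace Pool.Agent.T9h5.BG

open scoped TensorProduct
open Polynomial H39Gon H39Gon.E2 H39Gon.C4 H39Gon.TC2

section

variable {F : Type} [Field F]

/-- the functional on `TQ F n 0` of a functional on `ℤ[P^1]` killing the relations -/
noncomputable def of0 {n : ℕ} {W : Type} [AddCommGroup W] [Module ℚ W] (θ : ZP F →ₗ[ℤ] W)
    (h : ∀ r ∈ R n F, θ r = 0) : TQ F n 0 →ₗ[ℚ] W :=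
  LinearMap.liftBaseChange ℚ (TensorProduct.lift
    ((exteriorPower.alternatingMapLinearEquiv (R := ℤ) (M := UV F) (N := W) (n := 0)).toLinearMap ∘ₗ
      ((AlternatingMap.constLinearEquivOfIsEmpty (R' := ℤ) (M'' := UV F) (N'' := W)
        (ι := Fin 0)).toLinearMap) ∘ₗ
      ((R n F).liftQ θ (fun r hr => LinearMap.mem_ker.mpr (h r hr)))))

theorem of0_apply {n : ℕ} {W : Type} [AddCommGroup W] [Module ℚ W] (θ : ZP F →ₗ[ℤ] W)
    (h : ∀ r ∈ R n F, θ r = 0) (x : P1 F) (y : Fin 0 → UV F) :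
    of0 θ h (tq F n 0 x y) = θ (Finsupp.single x 1) := by
  unfold of0 tq bcl
  rw [LinearMap.liftBaseChange_tmul, one_smul]
  change (exteriorPower.alternatingMapLinearEquiv
    (AlternatingMap.constLinearEquivOfIsEmpty (θ (Finsupp.single x 1))))
    (exteriorPower.ιMulti ℤ 0 y) = _
  rw [exteriorPower.alternatingMapLinearEquiv_apply_ιMulti]
  rfl

theorem extend {U V W : Type} [AddCommGroup U] [Module ℚ U] [AddCommGroup V] [Module ℚ V]
    [AddCommGroup W] [Module ℚ W] (g : U →ₗ[ℚ] V) (hg : Function.Injective g) (φ : U →ₗ[ℚ] W) :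
    ∃ ψ : V →ₗ[ℚ] W, ∀ u, φ u = ψ (g u) := by
  obtain ⟨s, hs⟩ := LinearMap.exists_leftInverse_of_injective g (LinearMap.ker_eq_bot.2 hg)
  refine ⟨φ ∘ₗ s, fun u => ?_⟩
  have := LinearMap.congr_fun hs u
  simp only [LinearMap.comp_apply, LinearMap.id_apply] at this ⊢
  rw [this]

theorem hker_e (D : Differentials F) (hinj : Function.Injective (D.e 0)) {W : Type}
    [AddCommGroup W] [Module ℚ W] (θ : ZP F →ₗ[ℤ] W) (hθ : ∀ r ∈ R 2 F, θ r = 0) (α : ZP F)
    (hα : delta2 F α = 0) : θ α = 0 := by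
  obtain ⟨ψ, hψ⟩ := extend (D.e 0) hinj (of0 θ hθ)
  -- the composition with `Λ² → LQ`
  let L : (⋀[ℤ]^2 (UV F)) →ₗ[ℤ] W :=
    (ψ.restrictScalars ℤ) ∘ₗ (TensorProduct.mk ℤ ℚ (⋀[ℤ]^2 (UV F)) 1)
  have h1 : θ = L ∘ₗ delta2 F := by
    apply Finsupp.lhom_ext'
    intro x
    apply LinearMap.ext_ring
    rw [LinearMap.comp_apply, LinearMap.comp_apply, LinearMap.comp_apply]
    simp only [Finsupp.lsingle_apply]
    rw [← of0_apply θ hθ x ![], hψ]
    rcases x with _ | x
    · rw [D.e_inf, map_zero]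
      simp [delta2]
    · have hd : delta2 F (Finsupp.single (some x) 1) =
          exteriorPower.ιMulti ℤ 2 ![cl (1 - x), cl x] := by
        simp [delta2]
      by_cases hx : x = 0
      · subst hx
        rw [D.e_zero, map_zero, hd]
        have h2 : exteriorPower.ιMulti ℤ 2 ![cl (1 - 0 : F), cl 0] = 0 := by
          apply AlternatingMap.map_coord_zero _ (1 : Fin 2)
          simp [E2.cl_zero]
        rw [h2, map_zero]
      · by_cases hx1 : x = 1
        · subst hx1
          rw [D.e_one, map_zero, hd]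
          have h2 : exteriorPower.ιMulti ℤ 2 ![cl (1 - 1 : F), cl 1] = 0 := by
            apply AlternatingMap.map_coord_zero _ (0 : Fin 2)
            simp [E2.cl_zero]
          rw [h2, map_zero]
        · rw [D.e_some 0 x ![] hx hx1, hd]
          change ψ (lq F 2 _) = ψ ((1 : ℚ) ⊗ₜ[ℤ] exteriorPower.ιMulti ℤ 2 ![cl (1 - x), cl x])
          rfl
  rw [h1, LinearMap.comp_apply, hα, map_zero]

theorem hker_d (D : Differentials F) (m : ℕ) (hinj : Function.Injective (D.d m 0)) {W : Type}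
    [AddCommGroup W] [Module ℚ W] (θ : ZP F →ₗ[ℤ] W) (hθ : ∀ r ∈ R (m + 3) F, θ r = 0) (α : ZP F)
    (hα : deltaS F (R (m + 2) F) α = 0) : θ α = 0 := by
  obtain ⟨ψ, hψ⟩ := extend (D.d m 0) hinj (of0 θ hθ)
  let ι : UV F →ₗ[ℤ] (⋀[ℤ]^1 (UV F)) :=
    { toFun := fun v => exteriorPower.ιMulti ℤ 1 (fun _ => v)
      map_add' := fun a b => by
        have := (exteriorPower.ιMulti ℤ 1 (M := UV F)).map_update_add (fun _ => 0) 0 a b
        have hu : ∀ c : UV F, Function.update (fun _ : Fin 1 => (0 : UV F)) 0 c = fun _ => c := by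
          intro c; funext i; rw [Subsingleton.elim i 0]; simp
        rw [hu, hu, hu] at this
        exact this
      map_smul' := fun c a => by
        have := (exteriorPower.ιMulti ℤ 1 (M := UV F)).map_update_smul (fun _ => 0) 0 c a
        have hu : ∀ c : UV F, Function.update (fun _ : Fin 1 => (0 : UV F)) 0 c = fun _ => c := by
          intro c; funext i; rw [Subsingleton.elim i 0]; simp
        rw [hu, hu] at this
        exact this }
  let L : (B (m + 2) F) ⊗[ℤ] (UV F) →ₗ[ℤ] W :=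
    (ψ.restrictScalars ℤ) ∘ₗ (TensorProduct.mk ℤ ℚ (B (m + 2) F ⊗[ℤ] (⋀[ℤ]^1 (UV F))) 1) ∘ₗ
      (TensorProduct.map LinearMap.id ι)
  have h1 : θ = L ∘ₗ deltaS F (R (m + 2) F) := by
    apply Finsupp.lhom_ext'
    intro x
    apply LinearMap.ext_ring
    rw [LinearMap.comp_apply, LinearMap.comp_apply, LinearMap.comp_apply]
    simp only [Finsupp.lsingle_apply]
    rw [← of0_apply θ hθ x ![], hψ]
    rcases x with _ | x
    · rw [D.d_inf, map_zero]
      simp [deltaS]
    · have hd : deltaS F (R (m + 2) F) (Finsupp.single (some x) 1) =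
          (R (m + 2) F).mkQ (Finsupp.single (some x) 1) ⊗ₜ[ℤ] cl x := by
        simp [deltaS]
      by_cases hx : x = 0
      · subst hx
        rw [D.d_zero, map_zero, hd, E2.cl_zero, TensorProduct.tmul_zero, map_zero]
      · rw [D.d_some m 0 x ![] hx, hd]
        change ψ (tq F (m + 2) 1 _ _) = ψ ((1 : ℚ) ⊗ₜ[ℤ] (_ ⊗ₜ[ℤ] exteriorPower.ιMulti ℤ 1
          (fun _ => cl x)))
        have h3 : (Fin.cons (cl x) ![] : Fin (0 + 1) → UV F) = fun _ => cl x := by
          funext i
          refine Fin.cases rfl (fun i => i.elim0) i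
        rw [h3]
        rfl
  rw [h1, LinearMap.comp_apply, hα, map_zero]

end

end Pool.Agent.T9h5.BG
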