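import Pool.Agent.T9h5.BG.Inj

/-!
# The complexes `Γ(X,n) ⊗ ℚ` of curves: from degree one to all degrees
-/

set_option autoImplicit false
set_option linter.unusedSectionVars false

namespace Pool.Agent.T9h5.BG

open GonP Pool.Agent.TH358.BG Pool.Agent.TH358.GP

section

variable {F : Type} [Field F]

/-- transport of differentials -/
noncomputable def toD (D : GonP.Differentials F) : H39Gon.Differentials F where
  d m j := (GonP.eT F m (j + 1)).toLinearMap ∘ₗ ((D.d_spec m j).1.mk' (D.d m j)) ∘ₗ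
    (GonP.eT F (m + 1) j).symm.toLinearMap
  d_inf m j y := by
    simp only [LinearMap.comp_apply, LinearEquiv.coe_coe, IsLinearMap.mk'_apply]
    rw [GonP.eT_symm_tq (m + 1) j none y, (D.d_spec m j).2.1, map_zero]
  d_zero m j y := by
    simp only [LinearMap.comp_apply, LinearEquiv.coe_coe, IsLinearMap.mk'_apply]
    rw [GonP.eT_symm_tq (m + 1) j (some 0) y, (D.d_spec m j).2.2.1, map_zero]
  d_some m j x y hx := by
    simp only [LinearMap.comp_apply, LinearEquiv.coe_coe, IsLinearMap.mk'_apply]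
    rw [GonP.eT_symm_tq (m + 1) j (some x) y, (D.d_spec m j).2.2.2 x y hx]
    exact GonP.eT_tq m (j + 1) _ _
  e j := (GonP.eLQ F (j + 2)).toLinearMap ∘ₗ ((D.e_spec j).1.mk' (D.e j)) ∘ₗ
    (GonP.eT F 0 j).symm.toLinearMap
  e_inf j y := by
    simp only [LinearMap.comp_apply, LinearEquiv.coe_coe, IsLinearMap.mk'_apply]
    rw [GonP.eT_symm_tq 0 j none y, (D.e_spec j).2.1, map_zero]
  e_zero j y := by
    simp only [LinearMap.comp_apply, LinearEquiv.coe_coe, IsLinearMap.mk'_apply]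
    rw [GonP.eT_symm_tq 0 j (some 0) y, (D.e_spec j).2.2.1, map_zero]
  e_one j y := by
    simp only [LinearMap.comp_apply, LinearEquiv.coe_coe, IsLinearMap.mk'_apply]
    rw [GonP.eT_symm_tq 0 j (some 1) y, (D.e_spec j).2.2.2.1, map_zero]
  e_some j x y hx hx1 := by
    simp only [LinearMap.comp_apply, LinearEquiv.coe_coe, IsLinearMap.mk'_apply]
    rw [GonP.eT_symm_tq 0 j (some x) y, (D.e_spec j).2.2.2.2 x y hx hx1]
    exact GonP.eLQ_lq (j + 2) _

theorem exists_ofD (D : GonP.Differentials F) : ∃ D' : H39Gon.Differentials F, D = GonP.ofD D' :=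
  ⟨toD D, GonP.unique _ _⟩

/-- `H^1(Γ(F,m+2) ⊗ ℚ) = 0` -/
def H1F (D : GonP.Differentials F) : ℕ → Prop
  | 0 => Function.Injective (D.e 0)
  | (m + 1) => Function.Injective (D.d m 0)

/-- `H^1(Γ(F,m+2) ⊗ ℚ) = 0` -/
def H1F' (D : H39Gon.Differentials F) : ℕ → Prop
  | 0 => Function.Injective (D.e 0)
  | (m + 1) => Function.Injective (D.d m 0)

theorem h1F_ofD (D : H39Gon.Differentials F) (k : ℕ) : H1F (GonP.ofD D) k ↔ H1F' D k := by
  cases k with
  | zero =>
    constructor
    · intro h a b hab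
      have := @h ((GonP.eT F 0 0).symm a) ((GonP.eT F 0 0).symm b) (by
        simp only [GonP.ofD, LinearEquiv.apply_symm_apply]
        rw [hab])
      exact (GonP.eT F 0 0).symm.injective this
    · intro h
      exact (GonP.eLQ F 2).symm.injective.comp (h.comp (GonP.eT F 0 0).injective)
  | succ m =>
    constructor
    · intro h a b hab
      have := @h ((GonP.eT F (m + 1) 0).symm a) ((GonP.eT F (m + 1) 0).symm b) (by
        simp only [GonP.ofD, LinearEquiv.apply_symm_apply]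
        rw [hab])
      exact (GonP.eT F (m + 1) 0).symm.injective this
    · intro h
      exact (GonP.eT F m 1).symm.injective.comp (h.comp (GonP.eT F (m + 1) 0).injective)

theorem evL_of_inj (D : H39Gon.Differentials F) (m : ℕ) (h : ∀ k, k ≤ m → H1F' D k) : EvL F m := by
  induction m with
  | zero =>
    exact evL_zero' F fun W _ _ θ hθ α hα => hker_e D (h 0 le_rfl) θ hθ α hα
  | succ m ih =>
    exact evL_succ' F m (fun W _ _ θ hθ α hα => hker_d D m (h (m + 1) le_rfl) θ hθ α hα)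
      (ih fun k hk => h k (hk.trans (Nat.le_succ m)))

/-- exactness at `B_{m+2}(F) ⊗ Λ^{j+1} F^*` -/
theorem exactG (hsd : ∀ m, H39Gon.SpanDual F m) (DF : GonP.Differentials F) (m j : ℕ)
    (h : ∀ k, k ≤ m → H1F DF k) :
    Function.Exact (gd DF (m + 2) j) (gd DF (m + 1) (j + 1)) := by
  obtain ⟨D, rfl⟩ := exists_ofD DF
  have hE : EvL F m := evL_of_inj D m fun k hk => (h1F_ofD D k).1 (h k hk)
  cases m with
  | zero =>
    exact GonP.exact_conj (GonP.eT F 1 j) (GonP.eT F 0 (j + 1)) (GonP.eLQ F (j + 3)) _ _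
      (exact_de F hsd D j hE)
  | succ m =>
    exact GonP.exact_conj (GonP.eT F (m + 2) j) (GonP.eT F (m + 1) (j + 1)) (GonP.eT F m (j + 2))
      _ _ (exact_dd F hsd D m j hE)

theorem surjG (hsd : ∀ m, H39Gon.SpanDual F m) (DF : GonP.Differentials F) (j : ℕ) :
    Function.Surjective (DF.e j) := by
  obtain ⟨D, rfl⟩ := exists_ofD DF
  exact (GonP.eLQ F (j + 2)).symm.surjective.comp
    ((surj_e F hsd D j).comp (GonP.eT F 0 j).surjective)

end

section

variable {F : Type} [Field F] {X : Type} {κ : X → Type} [∀ x, Field (κ x)]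

/-- `H^1(Γ(X,n) ⊗ ℚ) = 0` (for `n ≥ 2`) -/
def DegOneZero (DF : Differentials F) (Dκ : ∀ x, Differentials (κ x)) (res : Res F κ) (n : ℕ) :
    Prop :=
  ∀ m, m + 2 = n → ∀ z : XT F κ (m + 2) 0, tot DF Dκ res (m + 1) 0 z = 0 → z = 0

/-- `H^i(Γ(X,n) ⊗ ℚ) = 0` for all `i ≥ 2` (for `n ≥ 2`): exactness in the degrees `i = 2, ..., n`
(`i = j + 2`), and in degree `n + 1`. -/
def HighZero (DF : Differentials F) (Dκ : ∀ x, Differentials (κ x)) (res : Res F κ) (n : ℕ) :
    Prop :=
  (∀ m j, m + j + 2 = n → ∀ z : XT F κ (m + 1) (j + 1),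
    tot DF Dκ res m (j + 1) z = 0 ↔ ∃ w, tot DF Dκ res (m + 1) j w = z) ∧
  ∀ j, j + 2 = n → ∀ z : XT F κ 0 (j + 2), ∃ w, tot DF Dκ res 0 (j + 1) w = z

theorem h1F_of (DF : Differentials F) (Dκ : ∀ x, Differentials (κ x)) (res : Res F κ)
    (hG : GenericIso DF Dκ res) (k : ℕ) (h : DegOneZero DF Dκ res (k + 2)) : H1F DF k := by
  have hfst : ∀ m j (z : XT F κ (m + 1) j), (tot DF Dκ res m j z).1 = gd DF m j z.1 := hG.1
  have hext : ∀ m j (z w : XT F κ m j), z.1 = w.1 → z = w := fun m j z w h => (hG.2 m j).1 h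
  have key : ∀ a : GT F (k + 2) 0, gd DF (k + 1) 0 a = 0 → a = 0 := by
    intro a ha
    have := h k rfl (a, 0) (hext _ _ _ _ (by rw [hfst]; exact ha))
    exact congrArg Prod.fst this
  cases k with
  | zero =>
    intro a b hab
    have h0 : DF.e 0 (a - b) = 0 := by
      rw [(DF.e_spec 0).1.map_sub, hab, sub_self]
    exact sub_eq_zero.1 (key (a - b) h0)
  | succ m =>
    intro a b hab
    have h0 : DF.d m 0 (a - b) = 0 := by
      rw [(DF.d_spec m 0).1.map_sub, hab, sub_self]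
    exact sub_eq_zero.1 (key (a - b) h0)

theorem high_of (hsd : ∀ m, H39Gon.SpanDual F m) (DF : Differentials F)
    (Dκ : ∀ x, Differentials (κ x)) (res : Res F κ) (hG : GenericIso DF Dκ res) (n : ℕ)
    (h : ∀ k, 2 ≤ k → k < n → DegOneZero DF Dκ res k) : HighZero DF Dκ res n := by
  have hfst : ∀ m j (z : XT F κ (m + 1) j), (tot DF Dκ res m j z).1 = gd DF m j z.1 := hG.1
  have hext : ∀ m j (z w : XT F κ m j), z.1 = w.1 → z = w := fun m j z w h => (hG.2 m j).1 h
  refine ⟨fun m j hn => ?_, fun j hj z => ?_⟩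
  · have hE : Function.Exact (gd DF (m + 1) j) (gd DF m (j + 1)) := by
      cases m with
      | zero =>
        intro y
        exact ⟨fun _ => surjG hsd DF j y, fun _ => rfl⟩
      | succ m =>
        exact exactG hsd DF m j fun k hk =>
          h1F_of DF Dκ res hG k (h (k + 2) (by omega) (by omega))
    intro z
    constructor
    · intro h
      have h1 : gd DF m (j + 1) z.1 = 0 := by
        rw [← hfst, h]
        rfl
      obtain ⟨a, ha⟩ := (hE z.1).1 h1
      refine ⟨(a, 0), hext _ _ _ _ ?_⟩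
      rw [hfst]
      exact ha
    · rintro ⟨w, rfl⟩
      apply hext
      rw [hfst, hfst]
      exact (hE _).2 ⟨w.1, rfl⟩
  · exact ⟨0, hext _ _ _ _ rfl⟩

theorem xacyclic_iff (hsd : ∀ m, H39Gon.SpanDual F m) (DF : Differentials F)
    (Dκ : ∀ x, Differentials (κ x)) (res : Res F κ) (hG : GenericIso DF Dκ res) :
    XAcyclic DF Dκ res ↔ ∀ k, 2 ≤ k → DegOneZero DF Dκ res k := by
  constructor
  · rintro ⟨h1, -, -⟩ k hk m hm z hz
    exact h1 m z hz
  · intro h
    refine ⟨fun m z hz => h (m + 2) (by omega) m rfl z hz, fun m j z => ?_, fun j z => ?_⟩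
    · exact (high_of hsd DF Dκ res hG (m + j + 2) fun k hk _ => h k hk).1 m j rfl z
    · exact (high_of hsd DF Dκ res hG (j + 2) fun k hk _ => h k hk).2 j rfl z

end

theorem trdeg_ratFunc (p : ℕ) [Fact p.Prime] (k : Type) [Field k] [Algebra (ZMod p) k]
    [Algebra.IsAlgebraic (ZMod p) k] : Algebra.trdeg (ZMod p) (RatFunc k) ≤ 1 := by
  have h1 : Algebra.trdeg (ZMod p) k = 0 := _root_.trdeg_eq_zero
  have h2 : Algebra.trdeg k (Polynomial k) = 1 := Polynomial.trdeg_of_isDomain
  have : Algebra.IsAlgebraic (Polynomial k) (RatFunc k) :=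
    IsLocalization.isAlgebraic _ (nonZeroDivisors (Polynomial k))
  have h3 : Algebra.trdeg (Polynomial k) (RatFunc k) = 0 := _root_.trdeg_eq_zero
  have h4 := trdeg_add_eq k (Polynomial k) (A := RatFunc k)
  have h5 := trdeg_add_eq (ZMod p) k (A := RatFunc k)
  rw [← h5, ← h4, h1, h2, h3]
  simp

end Pool.Agent.T9h5.BG
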